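import Pool.Agent.W978.QO.Stm
import Pool.Agent.W585.QN.DET
import Pool.Agent.W509.QN.BR
import Pool.Agent.W597.QN.RK

/-! Project QO, part DC: curried determinants over the complex numbers. -/

set_option autoImplicit false

namespace Pool.Agent.W279.QO

open Pool.Agent.W978.QN

theorem cf_bvR {R : Type} [CommRing R] (b : Fin 3 → Fin 3 → Fin 3 → ℤ) (p : Fin 3 → R)
    (u v : Fin 3) :
    cf (fun i j k => (b i j k : R)) p (bv u) (bv v) = mp b p v u := by
  unfold cf mp bv
  simp only [Pi.single_apply, mul_ite, mul_one, mul_zero, Finset.sum_ite_eq', Finset.mem_univ,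
    if_true]

theorem mt_mpR {R : Type} [CommRing R] (a : (Fin 3 → Fin 3) → ℤ) (σ : Equiv.Perm (Fin 3))
    (P : Fin 3 → Fin 3 → R) (u v : Fin 3) :
    mt a (σ 1) (σ 2) P u v = mp (cu a σ) (P (σ 0)) v u := by
  unfold Pool.Agent.W978.QN.mt
  rw [Matrix.of_apply, Pool.Agent.W509.QN.br R a σ]
  have h10 : σ 0 ≠ σ 1 := fun h => by simpa using σ.injective h
  have h20 : σ 0 ≠ σ 2 := fun h => by simpa using σ.injective h
  have h21 : σ 1 ≠ σ 2 := fun h => by simpa using σ.injective h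
  rw [Function.update_of_ne h20, Function.update_of_ne h10, Function.update_of_ne h21,
    Function.update_self, Function.update_self, cf_bvR]

theorem det_mpR {R : Type} [CommRing R] (a : (Fin 3 → Fin 3) → ℤ) (σ : Equiv.Perm (Fin 3))
    (P : Fin 3 → Fin 3 → R) :
    (mt a (σ 1) (σ 2) P).det = (Matrix.of (mp (cu a σ) (P (σ 0)))).det := by
  rw [← Matrix.det_transpose (Matrix.of (mp (cu a σ) (P (σ 0))))]
  congr 1
  ext u v
  rw [mt_mpR, Matrix.transpose_apply, Matrix.of_apply]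

theorem dc (a : (Fin 3 → Fin 3) → ℤ) (ha : Smooth a) (σ : Equiv.Perm (Fin 3)) :
    ∃ p : Fin 3 → ℂ, (Matrix.of (mp (cu a σ) p)).det ≠ 0 := by
  obtain ⟨P, hP⟩ := Pool.Agent.W585.QN.main Pool.Agent.W509.QN.br
    (Pool.Agent.W597.QN.rk Pool.Agent.W509.QN.br) a ha (σ 1) (σ 2)
    (fun h => by simpa using σ.injective h)
  exact ⟨P (σ 0), by rwa [← det_mpR]⟩

theorem main : Pool.Agent.W978.QO.S_DC := fun a ha σ => dc a ha σ

end Pool.Agent.W279.QO
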